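import Pool.Agent.H90.SN.Num

set_option autoImplicit false

/-! MP_43ee49_co: in a smoothed polyhedron `{x : A x ≤ 1}` all well-conditioned vertices are at
polynomial distance from each other. -/

open MeasureTheory ProbabilityTheory

namespace Pool.Agent.Results.MP_43ee49_co.NiceVertices

/-- There are constants `C, k` such that for all `m, n`, `0 < σ ≤ 1`, `0 < δ ≤ 1`, `ε > 0` and every
`m × n` matrix `Ābar` of Frobenius norm at most `1`, with probability at least `1 - ε` any two vertices `x, y`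
of `{x : A x ≤ 1}`, `A = Ābar + σ G`, at which all rows which are not tight have slack at least `δ` and for
which every `d` with `|A_i d| ≤ 1` for the tight rows `i` has entries at most `1/δ`, are joined by a path of
length at most `C (1 + m + n + 1/σ + 1/δ + 1/ε)^k` in the graph of the polyhedron. -/
theorem result : ∃ C k : ℕ, ∀ (m n : ℕ) (σ δ ε : ℝ), 0 < σ → σ ≤ 1 → 0 < δ → δ ≤ 1 → 0 < ε →
    ∀ Abar : Fin m → Fin n → ℝ, (∑ i, ∑ j, Abar i j ^ 2 ≤ 1) →
      (Measure.pi fun _ : Fin m => Measure.pi fun _ : Fin n => gaussianReal 0 1)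
        {G : Fin m → Fin n → ℝ | ¬ ∀ x y : ↥(Set.extremePoints ℝ
            {x : Fin n → ℝ | ∀ i, ∑ j, (Abar i j + σ * G i j) * x j ≤ 1}),
          ((∀ i, ∑ j, (Abar i j + σ * G i j) * (x : Fin n → ℝ) j = 1 ∨
              ∑ j, (Abar i j + σ * G i j) * (x : Fin n → ℝ) j ≤ 1 - δ) ∧
            ∀ d : Fin n → ℝ, (∀ i, ∑ j, (Abar i j + σ * G i j) * (x : Fin n → ℝ) j = 1 →
              |∑ j, (Abar i j + σ * G i j) * d j| ≤ 1) → ∀ k, |d k| ≤ 1 / δ) →
          ((∀ i, ∑ j, (Abar i j + σ * G i j) * (y : Fin n → ℝ) j = 1 ∨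
              ∑ j, (Abar i j + σ * G i j) * (y : Fin n → ℝ) j ≤ 1 - δ) ∧
            ∀ d : Fin n → ℝ, (∀ i, ∑ j, (Abar i j + σ * G i j) * (y : Fin n → ℝ) j = 1 →
              |∑ j, (Abar i j + σ * G i j) * d j| ≤ 1) → ∀ k, |d k| ≤ 1 / δ) →
          ∃ w : (SimpleGraph.fromRel
              (fun u v : ↥(Set.extremePoints ℝ
                  {x : Fin n → ℝ | ∀ i, ∑ j, (Abar i j + σ * G i j) * x j ≤ 1}) =>
                IsExtreme ℝ
                  {x : Fin n → ℝ | ∀ i, ∑ j, (Abar i j + σ * G i j) * x j ≤ 1}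
                  (segment ℝ (u : Fin n → ℝ) (v : Fin n → ℝ)))).Walk x y,
            (w.length : ℝ) ≤ C * (1 + (m : ℝ) + (n : ℝ) + 1 / σ + 1 / δ + 1 / ε) ^ k} ≤
        ENNReal.ofReal ε := by
  obtain ⟨C, k, h⟩ := H90SN.main
  refine ⟨C, k, fun m n σ δ ε h1 h2 h3 h4 h5 Abar hA => le_trans (measure_mono ?_)
    (h m n σ δ ε h1 h2 h3 h4 h5 Abar hA)⟩
  intro G hG hG'
  refine hG fun x y hx hy => hG' x y ⟨x.2, hx.1, fun d hd => hx.2 d fun i hi => ?_⟩
    ⟨y.2, hy.1, fun d hd => hy.2 d fun i hi => ?_⟩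
  · exact hd i (H44SD.mem_tight.2 hi)
  · exact hd i (H44SD.mem_tight.2 hi)

end Pool.Agent.Results.MP_43ee49_co.NiceVertices
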