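import Pool.Agent.H44.SD.Final

set_option autoImplicit false

/-! MP_43ee49_co: the smoothed diameter of `{x : A x ≤ 1}` depends on the number of inequalities
only through its logarithm. -/

open MeasureTheory ProbabilityTheory

namespace Pool.Agent.Results.MP_43ee49_co.SmoothedQuasiPoly

/-- With `Q = n + 1/σ + log(m+1) + 2`, the expected diameter of `{x : A x ≤ 1}` is at most
`Q^280 * min (2^n) (Q^(50 log(n+1)))` for all `m, n, σ > 0` and all `Ābar` of Frobenius norm at most `1`.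
In particular, for every `K`, the polynomial bound asked for in Q1 holds for all `m, n, σ` with
`log(n+2) log(n+1/σ+2) ≤ K log(m+2)`. -/
theorem result :
    (∀ (m n : ℕ) (σ : ℝ), 0 < σ →
      ∀ Abar : Fin m → Fin n → ℝ, (∑ i, ∑ j, Abar i j ^ 2 ≤ 1) →
        ∫⁻ G : Fin m → Fin n → ℝ,
          (((SimpleGraph.fromRel
              (fun u v : ↥(Set.extremePoints ℝ
                  {x : Fin n → ℝ | ∀ i, ∑ j, (Abar i j + σ * G i j) * x j ≤ 1}) =>
                IsExtreme ℝ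
                  {x : Fin n → ℝ | ∀ i, ∑ j, (Abar i j + σ * G i j) * x j ≤ 1}
                  (segment ℝ (u : Fin n → ℝ) (v : Fin n → ℝ)))).diam : ℕ) : ENNReal)
          ∂(Measure.pi fun _ : Fin m => Measure.pi fun _ : Fin n => gaussianReal 0 1)
        ≤ ENNReal.ofReal (((n : ℝ) + 1 / σ + Real.log ((m : ℝ) + 1) + 2) ^ 280 *
          min ((2 : ℝ) ^ n)
            (((n : ℝ) + 1 / σ + Real.log ((m : ℝ) + 1) + 2) ^ (50 * Real.log ((n : ℝ) + 1))))) ∧
    (∀ K : ℝ, ∃ C k : ℕ, ∀ (m n : ℕ) (σ : ℝ), 0 < σ →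
      Real.log ((n : ℝ) + 2) * Real.log ((n : ℝ) + 1 / σ + 2) ≤ K * Real.log ((m : ℝ) + 2) →
      ∀ Abar : Fin m → Fin n → ℝ, (∑ i, ∑ j, Abar i j ^ 2 ≤ 1) →
        ∫⁻ G : Fin m → Fin n → ℝ,
          (((SimpleGraph.fromRel
              (fun u v : ↥(Set.extremePoints ℝ
                  {x : Fin n → ℝ | ∀ i, ∑ j, (Abar i j + σ * G i j) * x j ≤ 1}) =>
                IsExtreme ℝ
                  {x : Fin n → ℝ | ∀ i, ∑ j, (Abar i j + σ * G i j) * x j ≤ 1}
                  (segment ℝ (u : Fin n → ℝ) (v : Fin n → ℝ)))).diam : ℕ) : ENNReal)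
          ∂(Measure.pi fun _ : Fin m => Measure.pi fun _ : Fin n => gaussianReal 0 1)
        ≤ (C : ENNReal) * ENNReal.ofReal ((1 + (m : ℝ) + (n : ℝ) + 1 / σ) ^ k)) :=
  ⟨fun m n σ hσ Abar hA => H44SD.main_bound m n σ hσ Abar hA, fun K => H44SD.main_region K⟩

end Pool.Agent.Results.MP_43ee49_co.SmoothedQuasiPoly
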